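import Pool.Agent.Lib.SHP.Final0

/-!
# Almost all patterns: Hardy-Littlewood, Poisson and Gauss at all scales

Let `ε > 0`, let `X` be large and `D ≤ (log X)^K`. All but a share `1 / (log X)^A` of the `D`-element subsets `S` of
`[1, X]` have the following properties for ALL `x` with `X^(1/6 + ε) ≤ x` and `x^(1/6 + ε) ≤ X` (so `x` may be much smaller
than the elements of `S`, or much larger):
1. the Hardy-Littlewood formula, with a saving of any power of `log x`, holds for EVERY tuple of `r ≤ R` distinct elements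
  of `S ∪ {0}` and all `y ≤ x`. For `D = r` this is the formula for almost all `r`-tuples `h` of `[1, X]` and for the tuples
  `(0, h)`;
2. if `D ≤ lam * log X`, then the number of primes in `n + S`, for `n ≤ x`, has the Poisson distribution in the limit;
3. if `D / log X` is large, then the moments of the normalised number of primes in `n + S`, `n ≤ x`, are those of the
  normal distribution in the limit.
-/

set_option autoImplicit false

open Finset Filter

namespace Pool.Agent.Results.MP_e87c7d_nt.AllScales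

open Pool.Agent.HLB Pool.Agent.HLT Pool.Agent.HLU Pool.Agent.SHP
open Pool.Agent.Lib.Sieve4 (c0 c0_pos)

/-- The factor at the prime `q` of the singular series of the shifts `f i`. -/
noncomputable def factor {r : ℕ} (f : Fin r → ℕ) (q : ℕ) : ℝ :=
  (1 - ((univ.image (fun i => (f i : ZMod q))).card : ℝ) / (q : ℝ)) * ((1 - 1 / (q : ℝ))⁻¹) ^ r

/-- The Hardy-Littlewood formula for the shifts `f i` and all `y ≤ x`, with the error `e`. The singular series `S`
is at least `κ` unless it vanishes for the obvious reason. -/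
def HardyLittlewood {r : ℕ} (κ : ℝ) (f : Fin r → ℕ) (x : ℕ) (e : ℝ) : Prop :=
  ∃ S : ℝ, HasProd (fun q : Nat.Primes => factor f q) S ∧
    ((∀ q : ℕ, q.Prime → (univ.image (fun i => (f i : ZMod q))).card < q) → κ ≤ S) ∧
    ∀ y : ℕ, y ≤ x →
      |(((Icc 1 y).filter (fun n : ℕ => ∀ i, (n + f i).Prime)).card : ℝ) -
        S * ∑ n ∈ Icc 2 y, ∏ i, 1 / Real.log ((n + f i : ℕ) : ℝ)| ≤ e

/-- The number of primes in `n + S`. -/
def primesIn (S : Finset ℕ) (n : ℕ) : ℕ := (S.filter (fun s => (n + s).Prime)).card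

/-- The expected number of primes in `n + S`. -/
noncomputable def expected (S : Finset ℕ) (n : ℕ) : ℝ := ∑ s ∈ S, 1 / Real.log ((n + s : ℕ) : ℝ)

/-- The `k`-th moment of the standard normal distribution: `1 * 3 * ... * (k - 1)` for even `k`, `0` for odd `k`. -/
def gaussMoment (k : ℕ) : ℝ := if Even k then ((k - 1).doubleFactorial : ℝ) else 0

lemma factor_eq {r : ℕ} (f : Fin r → ℕ) (q : ℕ) : factor f q = locI f q := by
  unfold factor locI nuI
  rw [Fintype.card_fin]

lemma gm_eq : ∀ k : ℕ, gm k = gaussMoment k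
  | 0 => by
      unfold gaussMoment
      rw [if_pos (by decide)]
      simp [gm]
  | 1 => by
      unfold gaussMoment
      rw [if_neg (by decide)]
      simp [gm]
  | k + 2 => by
      have h := gm_eq k
      have h1 : gm (k + 2) = (k + 1) * gm k := by rw [gm]
      rw [h1, h]
      unfold gaussMoment
      have h2 : Even (k + 2) ↔ Even k := by
        rw [Nat.even_add]
        simp
      by_cases hk : Even k
      · rw [if_pos hk, if_pos (h2.mpr hk)]
        rcases Nat.eq_zero_or_pos k with h0 | h0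
        · subst h0
          simp
        · obtain ⟨j, rfl⟩ : ∃ j, k = j + 1 := ⟨k - 1, by omega⟩
          have h3 : j + 1 + 2 - 1 = j + 2 := by omega
          rw [h3, Nat.doubleFactorial_add_two, Nat.add_sub_cancel]
          push_cast
          ring
      · rw [if_neg hk, if_neg (fun h => hk (h2.mp h)), mul_zero]

lemma np_eq' (S : Finset ℕ) (n : ℕ) : np S n = primesIn S n := rfl

lemma ms_eq' (S : Finset ℕ) (n : ℕ) : ms S n = expected S n := rfl

/-- The theorem. -/
theorem result : ∃ κ : ℕ → ℝ, (∀ r, 0 < κ r) ∧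
    ∀ (R K A : ℕ) (ε η lam : ℝ), 0 < ε → 0 < η → 0 < lam → ∃ (Lam : ℝ) (x₀ : ℕ), ∀ X : ℕ, x₀ ≤ X →
    ∀ D : ℕ, (D : ℝ) ≤ Real.log X ^ K →
    ∃ Y ⊆ (Icc 1 X).powersetCard D, (Y.card : ℝ) ≤ ((Icc 1 X).powersetCard D).card / Real.log X ^ A ∧
    ∀ S ∈ (Icc 1 X).powersetCard D, S ∉ Y →
      ∀ x : ℕ, (X : ℝ) ^ (1 / 6 + ε) ≤ x → (x : ℝ) ^ (1 / 6 + ε) ≤ X →
        -- 1. every tuple of distinct elements of `S` and `0`
        (∀ r : ℕ, 1 ≤ r → r ≤ R → ∀ f : Fin r → ℕ, Function.Injective f → (∀ i, f i ∈ insert 0 S) →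
          HardyLittlewood (κ r) f x (x / Real.log x ^ A)) ∧
        -- 2. Poisson distribution
        ((D : ℝ) ≤ lam * Real.log X → ∀ k : ℕ, k ≤ R →
          |(((Icc 1 x).filter (fun n => primesIn S n = k)).card : ℝ) / x -
            Real.exp (-(D / Real.log ((max X x : ℕ) : ℝ))) * (D / Real.log ((max X x : ℕ) : ℝ)) ^ k /
              (k.factorial : ℝ)| ≤ η) ∧
        -- 3. moments of the normal distribution
        (Lam * Real.log X ≤ D → ∀ k : ℕ, k ≤ R →
          |(∑ n ∈ Icc 1 x, (((primesIn S n : ℝ) - expected S n) / √(D / Real.log ((max X x : ℕ) : ℝ))) ^ k) / x -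
            gaussMoment k| ≤ η) := by
  refine ⟨fun r => if r = 0 then 1 else c0 r, fun r => ?_, fun R K A ε η lam hε hη hlam => ?_⟩
  · show 0 < if r = 0 then (1 : ℝ) else c0 r
    split_ifs with h
    · exact one_pos
    · exact c0_pos r (Nat.pos_of_ne_zero h)
  · obtain ⟨Lam, x₀, h⟩ := main0 R K A ε η lam hε hη hlam
    refine ⟨Lam, x₀, fun X hX D hD => ?_⟩
    obtain ⟨Y, h1, h2, h3⟩ := h X hX D hD
    refine ⟨Y, h1, h2, fun S hS hSY x hx1 hx2 => ?_⟩
    obtain ⟨g1, g2, g3⟩ := h3 S hS hSY x hx1 hx2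
    refine ⟨fun r hr1 hr2 f hf hfS => ?_, fun hl k hk => g2 hl k hk, fun hl k hk => ?_⟩
    · refine ⟨SI f, ?_, fun hadm => ?_, fun y hy => g1 r hr1 hr2 f hf hfS y hy⟩
      · simp only [factor_eq]
        exact hasProd_SI f hf
      · show (if r = 0 then (1 : ℝ) else c0 r) ≤ SI f
        rw [if_neg (by omega : ¬ r = 0)]
        have h0 : 0 < Fintype.card (Fin r) := by
          rw [Fintype.card_fin]
          omega
        have h4 := c0_le_SI f hf h0 (fun q hq => hadm q hq)
        rwa [Fintype.card_fin] at h4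
    · rw [← gm_eq]
      exact g3 hl k hk

end Pool.Agent.Results.MP_e87c7d_nt.AllScales
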