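import Pool.Agent.Lib.DSH.BoxA
import Pool.Agent.Lib.DSH.FinM
import Pool.Agent.Lib.DSH.PFinD
import Pool.Agent.Lib.DSH.FinX
import Pool.Agent.Lib.GMV.ZFr

/-!
# Prime tuples with dependent shifts: the Hardy-Littlewood asymptotic with a power saving exceptional set

Parameters: `m` variables `s i ∈ [1, X ^ α i]`, `α i > 0`, and `l` variables `u k ∈ [1, X]`. A slot is a pair `(i, j)`,
`i ≤ j`, `α i + α j = 1`, with the shift `s i * s j`, or one of the `u k`. `F` is a list of `r ≥ 1` different slots and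
`tup F (s, u)` the tuple `(0, shift 1, ..., shift r)`. For `m = 0` the shifts are free; if all `α i = 1 / 2` and `l = 0`
one may take all the `m (m + 1) / 2` products of two of the `m` variables of size `√X`; with `α 0 = 1 - κ` and `α i = κ`
for `i ≥ 1` one may take `s 0 * s 1, ..., s 0 * s r`, where the number of parameters is only `X ^ (1 + (r - 1) κ)`.

`count X b` is the number of `1 ≤ n ≤ X` such that all `n + b i` are prime, `S b` the singular series,
`main X b = S X / (log X) ^ (r + 1)`, and `AllBut α F X E P` says that all but at most `E` of the parameters for which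
the tuple is admissible (different numbers, no local obstruction) satisfy `P`. The number of all parameters is about
`X ^ (∑ i, α i + l)`.

`HL X ε b`: for all `y ≤ X` the number `count y b` is the Hardy-Littlewood value
`S ∑ n ∈ [2, y], 1 / ∏ log (n + b i)` up to `ε main X b`. `HLX X ε χ β b`: the same with the value
`S ∑ n ∈ [2, y], corr(n) / ∏ log (n + b i)`, where `χ` is a real character modulo `q` and `corr(n)` is the mean of
`∏ (1 - χ(c + b i) (n + b i) ^ (β - 1))` over the residue classes `c` modulo `q` with all `c + b i` prime to `q`.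

`result` (for all `m, l`, `α`, `r ≥ 1` and `F`; all statements are unconditional; `N = ∑ i, α i + l`):

1. for ALL large `X`, all but `X ^ (N - δ)` of the admissible parameters have at least `X ^ (1 - η)` prime tuples up to
   `X`, and at least `κ₀ μ main X b` of them, where `μ = μ(X) ∈ [X ^ (-η), 1]` does not depend on the parameters
   (`δ, κ₀` depend only on `m, l, α, r, F`, `η > 0` is arbitrary);
2. for ALL large `X`, all but `X ^ (N - δ)` of the admissible parameters satisfy `HL X ε`, or there are a real primitive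
   character `χ` modulo `q ∈ [(log X) ^ A, X ^ κ]` and a real zero `β ∈ [1 - C / log X, 1)` of its L-function such that
   all but `X ^ (N - δ)` of them satisfy `HLX X ε χ β`;
3. for arbitrarily large `X`, all but `X ^ (N - δ)` of the admissible parameters satisfy `HL X ε`;
4. for ALL large `X` there is `q`, which is `0` or in `[(log X) ^ A, X ^ κ]`, such that the same holds for all but
   `X ^ (N - δ)` of the admissible parameters for which `q = 0` or `K gcd (q, Delta) ≤ q`; here `Delta` is the product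
   of the differences of the tuple;
5. as 2, with the relative error `1 / (log X) ^ A` instead of `ε` and `X ^ N exp (-δ log X / log log X)` exceptions, for
   every `A`.

`Pool.Agent.Lib.GMV`: explicit formula with a smooth weight, log-free zero density estimate, zero free region with at
most one exceptional zero, Deuring-Heilbronn repulsion, model for the primes. `Pool.Agent.Lib.BLF`: inverse theorem with
polynomial dependence for averages along `n + s t`. `Pool.Agent.Lib.DSH`: the transference from the primes to the model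
for dependent shifts with a power saving, and the correction.
-/

set_option autoImplicit false

open Finset Filter

namespace Pool.Agent.Results.MP_e87c7d_nt.DependentShifts

/-- The number of `1 ≤ n ≤ y` such that all `n + b i` are prime. -/
def count {k : ℕ} (y : ℕ) (b : Fin k → ℕ) : ℕ :=
  ((Finset.Icc 1 y).filter (fun n : ℕ => ∀ i, (n + b i).Prime)).card

/-- The number of residue classes modulo `p` occupied by `b`. -/
def classes {k : ℕ} (b : Fin k → ℕ) (p : ℕ) : ℕ :=
  (Finset.univ.image (fun i : Fin k => (b i : ZMod p))).card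

/-- The singular series. -/
noncomputable def S {k : ℕ} (b : Fin k → ℕ) : ℝ :=
  ∏' p : Nat.Primes, ((1 - (classes b p : ℝ) / (p : ℝ)) * ((1 - 1 / (p : ℝ))⁻¹) ^ k)

/-- Distinct integers without local obstruction. -/
def Admissible {k : ℕ} (b : Fin k → ℕ) : Prop :=
  Function.Injective b ∧ ∀ p : ℕ, p.Prime → classes b p < p

/-- The product of the differences `|b i - b j|`, `i < j`. -/
def Delta {k : ℕ} (b : Fin k → ℕ) : ℕ :=
  ∏ i, ∏ j ∈ univ.filter (fun j => i < j), ((b i : ℤ) - b j).natAbs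

/-- The Hardy-Littlewood value. -/
noncomputable def hl {k : ℕ} (y : ℕ) (b : Fin k → ℕ) : ℝ :=
  S b * ∑ n ∈ Finset.Icc 2 y, ∏ i, (Real.log (n + b i))⁻¹

/-- `S b * X / (log X) ^ k`. -/
noncomputable def main {k : ℕ} (X : ℕ) (b : Fin k → ℕ) : ℝ := S b * X / Real.log X ^ k

/-- The Hardy-Littlewood formula with relative error `ε`, for all `y ≤ X`. -/
def HL {k : ℕ} (X : ℕ) (ε : ℝ) (b : Fin k → ℕ) : Prop :=
  ∀ y ≤ X, |(count y b : ℝ) - hl y b| ≤ ε * main X b

/-- The residue classes `c` modulo `q` such that all `c + b i` are prime to `q`. -/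
def cls {k : ℕ} (q : ℕ) (b : Fin k → ℕ) : Finset ℕ :=
  (range q).filter fun c => ∀ i, (c + b i).Coprime q

/-- The mean of `∏ i, (1 - χ (c + b i) * (n + b i) ^ (β - 1))` over these classes `c`. -/
noncomputable def corr {k q : ℕ} (χ : DirichletCharacter ℂ q) (β : ℝ) (b : Fin k → ℕ) (n : ℕ) : ℝ :=
  (∑ c ∈ cls q b, ∏ i, (1 - (χ ((c + b i : ℕ) : ZMod q)).re * ((n + b i : ℕ) : ℝ) ^ (β - 1))) / (cls q b).card

/-- The Hardy-Littlewood formula with relative error `ε`, for all `y ≤ X`, with the correction for primes whose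
density in the class `c` modulo `q` is proportional to `1 - χ c * n ^ (β - 1)`. -/
def HLX {k q : ℕ} (X : ℕ) (ε : ℝ) (χ : DirichletCharacter ℂ q) (β : ℝ) (b : Fin k → ℕ) : Prop :=
  ∀ y ≤ X, |(count y b : ℝ) - S b * ∑ n ∈ Finset.Icc 2 y, corr χ β b n * ∏ i, (Real.log (n + b i))⁻¹| ≤ ε * main X b

/-- `χ` is a real primitive character modulo `q` and `β` a real zero of its L-function, `a ≤ β < 1`. -/
def RealZero {q : ℕ} (χ : DirichletCharacter ℂ q) (β a : ℝ) : Prop :=
  χ.IsPrimitive ∧ χ ≠ 1 ∧ χ ^ 2 = 1 ∧ (∃ _ : NeZero q, DirichletCharacter.LFunction χ (β : ℂ) = 0) ∧ a ≤ β ∧ β < 1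

/-- The shift of a slot: `s i * s j` or `u k`. -/
def shift {m l : ℕ} (v : (Fin m → ℕ) × (Fin l → ℕ)) : (Fin m × Fin m) ⊕ Fin l → ℕ
  | .inl (i, j) => v.1 i * v.1 j
  | .inr k => v.2 k

/-- The tuple `(0, shift (F 1), ..., shift (F r))`. -/
def tup {m l r : ℕ} (F : Fin r → (Fin m × Fin m) ⊕ Fin l) (v : (Fin m → ℕ) × (Fin l → ℕ)) : Fin (r + 1) → ℕ :=
  Fin.cons 0 fun e => shift v (F e)

/-- The parameters `(s, u)`: `1 ≤ s i ≤ X ^ α i` and `1 ≤ u k ≤ X`. -/
noncomputable def box {m : ℕ} (l : ℕ) (α : Fin m → ℝ) (X : ℕ) : Finset ((Fin m → ℕ) × (Fin l → ℕ)) :=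
  (Fintype.piFinset fun i => Finset.Icc 1 ⌊(X : ℝ) ^ α i⌋₊) ×ˢ (Fintype.piFinset fun _ => Finset.Icc 1 X)

open scoped Classical in
/-- All but at most `E` of the parameters for which the tuple is admissible satisfy `P`. -/
def AllBut {m l r : ℕ} (α : Fin m → ℝ) (F : Fin r → (Fin m × Fin m) ⊕ Fin l) (X : ℕ) (E : ℝ)
    (P : (Fin (r + 1) → ℕ) → Prop) : Prop :=
  (((box l α X).filter fun v => Admissible (tup F v) ∧ ¬ P (tup F v)).card : ℝ) ≤ E

section Bridge

open Pool.Agent.HLB Pool.Agent.HLT Pool.Agent.HLR Pool.Agent.Lib.GMV Pool.Agent.DSH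

private lemma S_eq {k : ℕ} (b : Fin k → ℕ) : S b = SI b := by
  unfold S SI
  refine tprod_congr fun p => ?_
  unfold locI classes nuI
  rw [Fintype.card_fin]

variable {m l r : ℕ}

/-- The first index of a slot. -/
private def ii (F : Fin r → (Fin m × Fin m) ⊕ Fin l) (e : Fin r) : Fin (m + l) :=
  match F e with
  | .inl (i, _) => Fin.castAdd l i
  | .inr k => Fin.natAdd m k

/-- The second index of a slot. -/
private def jj (F : Fin r → (Fin m × Fin m) ⊕ Fin l) (e : Fin r) : Fin (m + l) :=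
  match F e with
  | .inl (_, j) => Fin.castAdd l j
  | .inr k => Fin.natAdd m k

/-- The exponents of all the variables. -/
private noncomputable def al (l : ℕ) (α : Fin m → ℝ) : Fin (m + l) → ℝ := Fin.append α fun _ => 1

private lemma al_cast (l : ℕ) (α : Fin m → ℝ) (i : Fin m) : al l α (Fin.castAdd l i) = α i := by
  unfold al
  rw [Fin.append_left]

private lemma al_nat (l : ℕ) (α : Fin m → ℝ) (k : Fin l) : al l α (Fin.natAdd m k) = 1 := by
  unfold al
  rw [Fin.append_right]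

private lemma slt (α : Fin m → ℝ) (hα : ∀ i, 0 < α i) (F : Fin r → (Fin m × Fin m) ⊕ Fin l) (hF : Function.Injective F)
    (hord : ∀ e i j, F e = Sum.inl (i, j) → i ≤ j ∧ α i + α j = 1) : SltA (ii F) (jj F) (al l α) where
  pos := by
    intro k
    refine Fin.addCases (fun i => ?_) (fun i => ?_) k
    · rw [al_cast]
      exact hα i
    · rw [al_nat]
      exact one_pos
  ord := by
    intro e
    unfold ii jj
    rcases h : F e with ⟨i, j⟩ | k
    · show Fin.castAdd l i ≤ Fin.castAdd l j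
      rw [Fin.le_def, Fin.val_castAdd, Fin.val_castAdd]
      exact (hord e i j h).1
    · exact le_rfl
  inj := by
    intro e e' he
    apply hF
    have h1 : ii F e = ii F e' := congrArg Prod.fst he
    have h2 : jj F e = jj F e' := congrArg Prod.snd he
    unfold ii at h1
    unfold jj at h2
    rcases h : F e with ⟨i, j⟩ | k <;> rcases h' : F e' with ⟨i', j'⟩ | k' <;>
      simp only [h, h'] at h1 h2
    · rw [Fin.castAdd_inj] at h1 h2
      rw [h1, h2]
    · exfalso
      have := congrArg Fin.val h1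
      rw [Fin.val_castAdd, Fin.val_natAdd] at this
      omega
    · exfalso
      have := congrArg Fin.val h1
      rw [Fin.val_castAdd, Fin.val_natAdd] at this
      omega
    · rw [Fin.natAdd_inj] at h1
      rw [h1]
  edge := by
    intro e he
    unfold ii jj at he ⊢
    rcases h : F e with ⟨i, j⟩ | k
    · show al l α (Fin.castAdd l i) + al l α (Fin.castAdd l j) = 1
      rw [al_cast, al_cast]
      exact (hord e i j h).2
    · rw [h] at he
      exact absurd rfl he
  single := by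
    intro e he
    unfold ii jj at he
    unfold ii
    rcases h : F e with ⟨i, j⟩ | k
    · rw [h] at he
      have he' : Fin.castAdd l i = Fin.castAdd l j := he
      rw [Fin.castAdd_inj] at he'
      right
      show al l α (Fin.castAdd l i) = 1 / 2
      rw [al_cast]
      have h1 := (hord e i j h).2
      rw [← he'] at h1
      linarith
    · left
      exact al_nat l α k

private lemma sft_eq (α : Fin m → ℝ) (F : Fin r → (Fin m × Fin m) ⊕ Fin l)
    (hord : ∀ e i j, F e = Sum.inl (i, j) → i ≤ j ∧ α i + α j = 1) (v : (Fin m → ℕ) × (Fin l → ℕ)) :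
    sf (ii F) (jj F) (tauA (al l α) (ii F)) (Fin.append v.1 v.2) = fun e => shift v (F e) := by
  funext e
  unfold sf tauA ii jj
  rcases h : F e with ⟨i, j⟩ | k
  · simp only [al_cast, Fin.append_left, shift]
    by_cases hij : i = j
    · have h1 := (hord e i j h).2
      rw [← hij] at h1
      have h2 : ¬ α i = 1 := by
        intro h3
        rw [h3] at h1
        norm_num at h1
      rw [if_pos (by rw [hij]), if_neg h2, hij, sq]
    · rw [if_neg (by rw [Fin.castAdd_inj]; exact hij)]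
  · simp only [al_nat, Fin.append_right, shift, if_true]

private lemma tup_eq (α : Fin m → ℝ) (F : Fin r → (Fin m × Fin m) ⊕ Fin l)
    (hord : ∀ e i j, F e = Sum.inl (i, j) → i ≤ j ∧ α i + α j = 1) (v : (Fin m → ℕ) × (Fin l → ℕ)) :
    tup F v = c0 (sf (ii F) (jj F) (tauA (al l α) (ii F)) (Fin.append v.1 v.2)) := by
  unfold tup c0
  rw [sft_eq α F hord]

private lemma dm_eq (l : ℕ) (α : Fin m → ℝ) : ∑ k, al l α k = ∑ i, α i + l := by
  rw [Fin.sum_univ_add]
  simp only [al_cast, al_nat, Finset.sum_const, Finset.card_univ, Fintype.card_fin, nsmul_eq_mul, mul_one]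

private lemma mem_Bx {α : Fin m → ℝ} {X : ℕ} {v : (Fin m → ℕ) × (Fin l → ℕ)} (hv : v ∈ box l α X) :
    Fin.append v.1 v.2 ∈ Bg (HA (al l α)) X := by
  unfold box at hv
  rw [mem_product, Fintype.mem_piFinset, Fintype.mem_piFinset] at hv
  unfold Bg
  rw [Fintype.mem_piFinset]
  intro k
  unfold HA
  refine Fin.addCases (fun i => ?_) (fun i => ?_) k
  · rw [al_cast, Fin.append_left]
    exact hv.1 i
  · rw [al_nat, Fin.append_right, BoxAAux.fl_one]
    exact hv.2 i

private lemma append_inj : Function.Injective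
    (fun v : (Fin m → ℕ) × (Fin l → ℕ) => (Fin.append v.1 v.2 : Fin (m + l) → ℕ)) := by
  intro v w h
  have h' : (Fin.append v.1 v.2 : Fin (m + l) → ℕ) = Fin.append w.1 w.2 := h
  refine Prod.ext (funext fun i => ?_) (funext fun i => ?_)
  · have := congrFun h' (Fin.castAdd l i)
    rwa [Fin.append_left, Fin.append_left] at this
  · have := congrFun h' (Fin.natAdd m i)
    rwa [Fin.append_right, Fin.append_right] at this

private lemma allBut_of (α : Fin m → ℝ) (F : Fin r → (Fin m × Fin m) ⊕ Fin l)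
    (hord : ∀ e i j, F e = Sum.inl (i, j) → i ≤ j ∧ α i + α j = 1) {X : ℕ} {E : ℝ} {P : (Fin r → ℕ) → Prop}
    {P' : (Fin (r + 1) → ℕ) → Prop}
    (h : ABF r (Bg (HA (al l α))) (sf (ii F) (jj F) (tauA (al l α) (ii F))) X E P)
    (hP : ∀ a : Fin r → ℕ, P a → P' (c0 a)) : AllBut α F X E P' := by
  classical
  obtain ⟨G, hG, h⟩ := h
  refine le_trans ?_ hG
  norm_cast
  refine Finset.card_le_card_of_injOn (fun v => (Fin.append v.1 v.2 : Fin (m + l) → ℕ)) ?_
    (fun v _ w _ h => append_inj h)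
  intro v hv
  rw [Finset.mem_coe, mem_filter] at hv
  obtain ⟨h1, h2, h3⟩ := hv
  rw [tup_eq α F hord] at h2 h3
  rw [Finset.mem_coe]
  by_contra hcon
  exact h3 (hP _ (h _ (mem_Bx h1) hcon h2.1 h2.2))

private lemma good_of {X : ℕ} {e : ℝ} {a : Fin r → ℕ} (h : Good r X e a) : HL X e (c0 a) := by
  intro y hy
  have := h y hy
  unfold hl main
  rw [S_eq]
  exact this

private lemma goodX_of {X : ℕ} {e : ℝ} {x : CI} {β : ℝ} {a : Fin r → ℕ} (h : GoodX r X e x β a) :
    HLX X e x.2 β (c0 a) := by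
  intro y hy
  have := h y hy
  unfold main
  rw [S_eq]
  exact this

private lemma rz_of {x : CI} {β a : ℝ} (h : RZ x β) (ha : a ≤ β) : RealZero x.2 β a := by
  obtain ⟨h1, h2, h3, h4, h5⟩ := h
  refine ⟨h1, h2, h3, ⟨inferInstance, ?_⟩, ha, h5⟩
  rwa [Lf_of_ne h2] at h4

end Bridge

open Pool.Agent.Lib.GMV Pool.Agent.DSH in
theorem result (m l r : ℕ) (hr : 1 ≤ r) (α : Fin m → ℝ) (hα : ∀ i, 0 < α i) (F : Fin r → (Fin m × Fin m) ⊕ Fin l)
    (hF : Function.Injective F) (hord : ∀ e i j, F e = Sum.inl (i, j) → i ≤ j ∧ α i + α j = 1) :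
    -- (1) all `X`: many prime tuples
    (∃ δ > 0, ∃ κ₀ > 0, ∀ η > 0, ∃ X0 : ℕ, ∀ X ≥ X0, ∃ μ : ℝ, (X : ℝ) ^ (-η) ≤ μ ∧ μ ≤ 1 ∧
      AllBut α F X ((X : ℝ) ^ (∑ i, α i + l - δ : ℝ)) fun b =>
        (X : ℝ) ^ (1 - η : ℝ) ≤ count X b ∧ κ₀ * μ * main X b ≤ count X b) ∧
    -- (2) all `X`: the asymptotic formula, possibly with the correction by one real character
    (∀ ε > 0, ∀ κ > 0, ∃ δ > 0, ∃ C : ℝ, ∀ A : ℕ, ∃ X0 : ℕ, ∀ X ≥ X0,
      AllBut α F X ((X : ℝ) ^ (∑ i, α i + l - δ : ℝ)) (HL X ε) ∨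
      ∃ (q : ℕ) (χ : DirichletCharacter ℂ q) (β : ℝ), RealZero χ β (1 - C / Real.log X) ∧
        Real.log X ^ A ≤ q ∧ (q : ℝ) ≤ (X : ℝ) ^ (κ : ℝ) ∧
        AllBut α F X ((X : ℝ) ^ (∑ i, α i + l - δ : ℝ)) (HLX X ε χ β)) ∧
    -- (3) arbitrarily large `X`
    (∀ ε > 0, ∃ δ > 0, ∀ N : ℕ, ∃ X ≥ N, AllBut α F X ((X : ℝ) ^ (∑ i, α i + l - δ : ℝ)) (HL X ε)) ∧
    -- (4) all `X`, outside one modulus
    (∀ ε > 0, ∀ κ > 0, ∃ δ > 0, ∃ K : ℕ, ∀ A : ℕ, ∃ X0 : ℕ, ∀ X ≥ X0,
      ∃ q : ℕ, (q : ℝ) ≤ (X : ℝ) ^ (κ : ℝ) ∧ (q = 0 ∨ Real.log X ^ A ≤ q) ∧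
      AllBut α F X ((X : ℝ) ^ (∑ i, α i + l - δ : ℝ)) fun b =>
        (q ≠ 0 ∧ q < K * Nat.gcd q (Delta b)) ∨ HL X ε b) ∧
    -- (5) error a power of the logarithm
    (∀ (A : ℕ), ∀ κ > 0, ∃ δ > 0, ∃ C : ℝ, ∀ A' : ℕ, ∃ X0 : ℕ, ∀ X ≥ X0,
      AllBut α F X ((X : ℝ) ^ (∑ i, α i + l : ℝ) * Real.exp (-(δ * Real.log X / Real.log (Real.log X))))
        (HL X (1 / Real.log X ^ A)) ∨
      ∃ (q : ℕ) (χ : DirichletCharacter ℂ q) (β : ℝ),
        RealZero χ β (1 - C * Real.log (Real.log X) / Real.log X) ∧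
        Real.log X ^ A' ≤ q ∧ (q : ℝ) ≤ (X : ℝ) ^ (κ : ℝ) ∧
        AllBut α F X ((X : ℝ) ^ (∑ i, α i + l : ℝ) * Real.exp (-(δ * Real.log X / Real.log (Real.log X))))
          (HLX X (1 / Real.log X ^ A) χ β)) := by
  obtain ⟨c1, hc1, hZ⟩ := zero_free
  have hZ' : ZFree c1 := hZ
  obtain ⟨a0, B0, c2, ha0, hB0, hc2, X1, hsum⟩ := sumB c1 (c1 / 2) hZ' (by linarith) (by linarith)
  have hBS : BS B0 c2 := ⟨X1, fun X Q hX hQ => by
    obtain ⟨b, M, q, h1, h2, -⟩ := hsum X Q hX hQ
    exact ⟨b, h1, h2⟩⟩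
  obtain ⟨e, e', cF, K1, hFam⟩ := famA hr (ii F) (jj F) (al l α) (slt α hα F hF hord) B0 c2 hc2 hBS
  rw [dm_eq] at hFam
  refine ⟨?_, fun ε hε κ hκ => ?_, fun ε hε => ?_, fun ε hε κ hκ => ?_, fun A κ hκ => ?_⟩
  · obtain ⟨δ, κ0, hδ, hκ, h⟩ := posD r hr _ _ _ _ _ _ _ hFam
    refine ⟨δ, hδ, κ0, hκ, fun η hη => ?_⟩
    obtain ⟨X0, h2⟩ := h η hη
    refine ⟨X0, fun X hX => ?_⟩
    obtain ⟨μ, hm1, hm2, hAB⟩ := h2 X hX
    refine ⟨μ, hm1, hm2, allBut_of α F hord hAB fun a ha => ?_⟩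
    unfold main
    rw [S_eq]
    exact ha
  · obtain ⟨δ, hδ, C, h⟩ := finX_all r hr _ _ _ _ _ _ _ hFam c1 hZ' hc1 ε hε κ hκ
    refine ⟨δ, hδ, C, fun A => ?_⟩
    obtain ⟨X0, h2⟩ := h A
    refine ⟨X0, fun X hX => ?_⟩
    rcases h2 X hX with h3 | ⟨x, β, h3, h4, h5, h6, h7⟩
    · exact Or.inl (allBut_of α F hord h3 fun a ha => good_of ha)
    · exact Or.inr ⟨md x, x.2, β, rz_of h3 h6, h4, h5, allBut_of α F hord h7 fun a ha => goodX_of ha⟩
  · obtain ⟨δ, hδ, h⟩ := finD_inf r hr _ _ _ _ _ _ _ hFam c1 hZ' hc1 ε hε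
    refine ⟨δ, hδ, fun N => ?_⟩
    obtain ⟨X, hX, h2⟩ := h N
    exact ⟨X, hX, allBut_of α F hord h2 fun a ha => good_of ha⟩
  · obtain ⟨δ, hδ, K, h⟩ := finD_mod r hr _ _ _ _ _ _ _ hFam c1 hZ' hc1 ε hε κ hκ
    refine ⟨δ, hδ, K, fun A => ?_⟩
    obtain ⟨X0, h2⟩ := h A
    refine ⟨X0, fun X hX => ?_⟩
    obtain ⟨q, h3, h4, h5⟩ := h2 X hX
    exact ⟨q, h3, h4, allBut_of α F hord h5 fun a ha => ha.imp (fun h => h) good_of⟩
  · obtain ⟨δ, hδ, C, h⟩ := finX_log r hr _ _ _ _ _ _ _ hFam c1 hZ' hc1 A κ hκ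
    refine ⟨δ, hδ, C, fun A' => ?_⟩
    obtain ⟨X0, h2⟩ := h A'
    refine ⟨X0, fun X hX => ?_⟩
    rcases h2 X hX with h3 | ⟨x, β, h3, h4, h5, h6, h7⟩
    · exact Or.inl (allBut_of α F hord h3 fun a ha => good_of ha)
    · exact Or.inr ⟨md x, x.2, β, rz_of h3 h6, h4, h5, allBut_of α F hord h7 fun a ha => goodX_of ha⟩

end Pool.Agent.Results.MP_e87c7d_nt.DependentShifts
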