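import Pool.Agent.Lib.LEN.FinH

/-!
# Prime tuples of every length and the primes around them

`X` is a large integer, `y X = log X / log log X`. For `h ∈ [1, X]^r` let `E X h` be the set of the `n ∈ (X, 2X]` such
that `n + h 1, ..., n + h r` are all prime, and `P X h = S(h) X / (log X)^r` the Hardy-Littlewood prediction for its
size, `S(h)` the singular series. For further shifts `s ∈ [1, X]^D` and `T ⊆ {1, ..., D}` let `Q X w h s T` be the
probability of `{j : n + s j is prime} = T` in Granville's model: `n` is in a uniformly distributed residue class modulo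
the product `W` of the primes `p ≤ w` among those for which all `n + h i` are coprime to `W`; given this class, the
`n + s j` coprime to `W` are prime with the probability `(W / φ(W)) / log X`, independently, and the others are not
prime. `distance X w h s` is the sum over all `T` of the differences `|#{n ∈ E : {j : n + s j prime} = T} - P Q(T)|`.
Almost all means: for all admissible `h ∈ [1, X]^r` (for all `s ∈ [1, X]^D`) but a share `ε`.

Let `ε > 0` and `g = e ^ -γ = 0.5614...`. For ALL large `X` the assertion `Beyond ε X` holds: for EVERY length `r` with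
`(1 + ε) y ≤ r ≤ X ^ (1 - ε)`
A. if `r ≤ X ^ (g - ε)`, the prediction is `P < 1` for EVERY `h ∈ [1, X]^r` with distinct entries;
B. for almost all admissible `h ∈ [1, X]^r` there is no `n ∈ [1, 2X]` with all `n + h i` prime, and if
  `r ≥ X ^ (g + ε)`, the prediction fails: `P` exceeds `X`, the number of all `n ∈ (X, 2X]`.
There is `C > 0` such that for arbitrarily large `X`, and for all large `X` for which no real primitive character modulo
`q ≤ exp (C y)` has a real zero in `[1 - C / y, 1)`, the assertion `Law ε X` holds: for EVERY length `r ≤ X ^ (g - ε)`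
almost all admissible `h ∈ [1, X]^r` satisfy
1. if `r ≤ (1 - ε) y`, the Hardy-Littlewood asymptotic formula `|#E - P| ≤ ε P`;
2. for ALL `w ∈ [ε y, (log X) / 200]` and ALL `D` with `r + D / log X ≤ (1 - ε) y`, for almost all `s` the distance is
  `≤ ε P`. (`r = 0`: for every `D ≤ (1 - ε) y log X` and almost all `s` the pattern of the primes among
  `n + s 1, ..., n + s D` has, over the `n ∈ (X, 2X]`, the law of the model up to `ε` in total variation.)
3. if `r ≤ (1 - ε) y`, for ALL `w ∈ [ε y, (log X) / 200]` and ALL `D` with `r + D / log X ≥ (1 + ε) y`, for almost all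
  `s` the distance is `≥ (2 - ε) P`, as large as possible;
4. the prediction decides, with the cutoff exactly 1: `|#E - P| ≤ ε P` if `P ≥ 1`, and `E` is empty if `P ≤ 1`.
-/

set_option autoImplicit false

open Finset Filter

namespace Pool.Agent.Results.MP_e87c7d_nt.JointLaw

/-- The number of residue classes modulo `p` occupied by `h`. -/
def classes {r : ℕ} (h : Fin r → ℕ) (p : ℕ) : ℕ := (univ.image (fun i => (h i : ZMod p))).card

/-- The singular series. -/
noncomputable def S {r : ℕ} (h : Fin r → ℕ) : ℝ :=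
  ∏' p : Nat.Primes, (1 - (classes h p : ℝ) / (p : ℝ)) * ((1 - 1 / (p : ℝ))⁻¹) ^ r

/-- Distinct numbers without local obstruction. -/
def Admissible {r : ℕ} (h : Fin r → ℕ) : Prop :=
  Function.Injective h ∧ ∀ p : ℕ, p.Prime → classes h p < p

open scoped Classical in
/-- All but at most a share `ε` of the admissible `h ∈ [1, X]^r` satisfy `A`. -/
def AlmostAll (ε : ℝ) (r X : ℕ) (A : (Fin r → ℕ) → Prop) : Prop :=
  (((Fintype.piFinset fun _ : Fin r => Icc 1 X).filter fun h => Admissible h ∧ ¬ A h).card : ℝ) ≤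
    ε * ((Fintype.piFinset fun _ : Fin r => Icc 1 X).filter Admissible).card

open scoped Classical in
/-- All but at most a share `ε` of all `s ∈ [1, X]^D` satisfy `A`. -/
def Most (ε : ℝ) (D X : ℕ) (A : (Fin D → ℕ) → Prop) : Prop :=
  (((Fintype.piFinset fun _ : Fin D => Icc 1 X).filter fun s => ¬ A s).card : ℝ) ≤ ε * (X : ℝ) ^ D

/-- The `n ∈ (X, 2X]` such that all `n + h i` are prime. -/
def E {r : ℕ} (X : ℕ) (h : Fin r → ℕ) : Finset ℕ :=
  (Ioc X (2 * X)).filter fun n => ∀ i, (n + h i).Prime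

/-- The Hardy-Littlewood prediction for the size of `E`. -/
noncomputable def P {r : ℕ} (X : ℕ) (h : Fin r → ℕ) : ℝ := S h * X / Real.log X ^ r

/-- `log X / log log X`. -/
noncomputable def y (X : ℕ) : ℝ := Real.log X / Real.log (Real.log X)

/-- `e ^ -γ`, `γ` the Euler-Mascheroni constant. -/
noncomputable def g : ℝ := Real.exp (-Real.eulerMascheroniConstant)

open scoped Classical in
/-- The classes `n` modulo `W`, the product of the primes `p ≤ w`, such that all `n + h i` are coprime to `W`. -/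
noncomputable def good {r : ℕ} (w : ℕ) (h : Fin r → ℕ) : Finset ℕ :=
  (range (primorial w)).filter fun n => ∀ i, Nat.Coprime (n + h i) (primorial w)

/-- The probability in the model that `m` is prime: `(W / φ(W)) / log X` if `m` is coprime to `W`, and `0` if not. -/
noncomputable def coin (X w m : ℕ) : ℝ :=
  if Nat.Coprime m (primorial w) then
    (primorial w / Nat.totient (primorial w) : ℝ) / Real.log X else 0

/-- The probability in the model that `n + s j` is prime exactly for `j ∈ T`. -/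
noncomputable def Q {r D : ℕ} (X w : ℕ) (h : Fin r → ℕ) (s : Fin D → ℕ) (T : Finset (Fin D)) : ℝ :=
  (∑ n ∈ good w h, (∏ j ∈ T, coin X w (n + s j)) * ∏ j ∈ Tᶜ, (1 - coin X w (n + s j))) / (good w h).card

open scoped Classical in
/-- The distance of the primes from the model. -/
noncomputable def distance {r D : ℕ} (X w : ℕ) (h : Fin r → ℕ) (s : Fin D → ℕ) : ℝ :=
  ∑ T : Finset (Fin D),
    |(((E X h).filter fun n => ∀ j, (n + s j).Prime ↔ j ∈ T).card : ℝ) - P X h * Q X w h s T|

/-- A real primitive character modulo `q ≤ exp (C y)` has a real zero `β ∈ [1 - C / y, 1)`, `y = log X / log log X`. -/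
def RealZero (C : ℝ) (X : ℕ) : Prop :=
  ∃ (q : ℕ) (χ : DirichletCharacter ℂ q) (β : ℝ), (q : ℝ) ≤ Real.exp (C * y X) ∧
    χ.IsPrimitive ∧ χ ≠ 1 ∧ χ ^ 2 = 1 ∧
    (∃ _ : NeZero q, DirichletCharacter.LFunction χ (β : ℂ) = 0) ∧ 1 - C / y X ≤ β ∧ β < 1

/-- For every length `r ≤ X ^ (g - ε)` all but a share `ε` of the admissible `h ∈ [1, X]^r` satisfy all the
assertions 1 to 4 of the introduction, for all `D` and all `w ∈ [ε y, (log X) / 200]` at once. -/
def Law (ε : ℝ) (X : ℕ) : Prop :=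
  ∀ r : ℕ, (r : ℝ) ≤ (X : ℝ) ^ (g - ε) → AlmostAll ε r X fun h =>
    -- 1. Hardy-Littlewood below the threshold
    ((r : ℝ) ≤ (1 - ε) * y X → |((E X h).card : ℝ) - P X h| ≤ ε * P X h) ∧
    -- 2. the joint law below the line
    (∀ w : ℕ, ε * y X ≤ w → (w : ℝ) ≤ Real.log X / 200 →
      ∀ D : ℕ, (r : ℝ) + D / Real.log X ≤ (1 - ε) * y X →
        Most ε D X fun s => distance X w h s ≤ ε * P X h) ∧
    -- 3. beyond the line
    ((r : ℝ) ≤ (1 - ε) * y X → ∀ w : ℕ, ε * y X ≤ w → (w : ℝ) ≤ Real.log X / 200 →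
      ∀ D : ℕ, (1 + ε) * y X ≤ r + D / Real.log X →
        Most ε D X fun s => (2 - ε) * P X h ≤ distance X w h s) ∧
    -- 4. the prediction decides
    ((1 ≤ P X h → |((E X h).card : ℝ) - P X h| ≤ ε * P X h) ∧ (P X h ≤ 1 → E X h = ∅))

/-- Beyond the threshold for the tuple, for every length `(1 + ε) y ≤ r ≤ X ^ (1 - ε)`. -/
def Beyond (ε : ℝ) (X : ℕ) : Prop :=
  ∀ r : ℕ, (1 + ε) * y X ≤ r → (r : ℝ) ≤ (X : ℝ) ^ (1 - ε) →
    -- A. the prediction is below 1 up to the length `X ^ (g - ε)`, for every tuple of distinct numbers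
    ((r : ℝ) ≤ (X : ℝ) ^ (g - ε) → ∀ h ∈ Fintype.piFinset fun _ : Fin r => Icc 1 X,
      Function.Injective h → P X h < 1) ∧
    -- B. no prime tuple, for almost all `h`; the prediction fails from the length `X ^ (g + ε)` on
    AlmostAll ε r X fun h =>
      (∀ n ∈ Icc 1 (2 * X), ¬ ∀ i, (n + h i).Prime) ∧ ((X : ℝ) ^ (g + ε) ≤ r → X < P X h)

section aux

open Pool.Agent.Lib.LEN Pool.Agent.HLB Pool.Agent.HLR

lemma S_eq {r : ℕ} (h : Fin r → ℕ) : S h = SI h := by
  unfold S SI locI classes nuI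
  simp only [Fintype.card_fin]

/-- The singular series of distinct numbers is a convergent product. -/
lemma hasProd_S {r : ℕ} (h : Fin r → ℕ) (hh : Function.Injective h) :
    HasProd (fun p : Nat.Primes => (1 - (classes h p : ℝ) / (p : ℝ)) * ((1 - 1 / (p : ℝ))⁻¹) ^ r)
      (S h) := by
  have h1 := hasProd_SI h hh
  rw [S_eq]
  unfold locI nuI at h1
  simp only [Fintype.card_fin] at h1
  exact h1

lemma P_eq {r : ℕ} (X : ℕ) (h : Fin r → ℕ) : P X h = pr X h := by
  unfold P pr
  rw [S_eq]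

lemma E_eq {r : ℕ} (X : ℕ) (h : Fin r → ℕ) : E X h = Sh X h := rfl

lemma almost {ε : ℝ} {r X : ℕ} {A : (Fin r → ℕ) → Prop} {B : (Fin r → ℕ) → Prop}
    (hAB : ∀ h, ¬ A h → B h) [DecidablePred (fun h : Fin r → ℕ => Adm h ∧ B h)]
    [DecidablePred (fun h : Fin r → ℕ => Adm h)]
    (hB : (((Tup r (Icc 1 X)).filter (fun h => Adm h ∧ B h)).card : ℝ) ≤
      ε * ((Tup r (Icc 1 X)).filter (fun h => Adm h)).card) : AlmostAll ε r X A := by
  classical
  unfold AlmostAll
  have h1 : ((Fintype.piFinset fun _ : Fin r => Icc 1 X).filter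
      fun h => Admissible h ∧ ¬ A h).card ≤
      ((Tup r (Icc 1 X)).filter (fun h => Adm h ∧ B h)).card := by
    refine card_le_card fun h hh => ?_
    rw [mem_filter] at hh ⊢
    exact ⟨hh.1, hh.2.1, hAB h hh.2.2⟩
  have h2 : (((Fintype.piFinset fun _ : Fin r => Icc 1 X).filter
      fun h => Admissible h ∧ ¬ A h).card : ℝ) ≤
      ((Tup r (Icc 1 X)).filter (fun h => Adm h ∧ B h)).card := by exact_mod_cast h1
  have h3 : (Fintype.piFinset fun _ : Fin r => Icc 1 X).filter Admissible =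
      (Tup r (Icc 1 X)).filter (fun h => Adm h) := by
    ext h
    rw [mem_filter, mem_filter]
    exact Iff.rfl
  rw [h3]
  exact h2.trans hB

lemma DZ_eq (w : ℕ) : (DZ w)⁻¹ = (primorial w : ℝ) / Nat.totient (primorial w) := by
  have h1 : ((Nat.totient (primorial w) : ℚ) : ℝ) = (primorial w : ℝ) * DZ w := by
    rw [Nat.totient_eq_mul_prod_factors, _root_.primeFactors_primorial]
    unfold DZ
    push_cast
    simp only [one_div]
  have h2 : (primorial w : ℝ) ≠ 0 := by exact_mod_cast (primorial_pos w).ne'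
  rw [← Rat.cast_natCast (Nat.totient (primorial w)), h1, div_mul_eq_div_div, div_self h2, one_div]

lemma coin_eq (X w b m : ℕ) : coin X w (b + m) = qq X w b m := by
  unfold coin qq
  rw [← Cls0.PP_eq_primorial, DZ_eq, ← Cls0.PP_eq_primorial]

lemma good_eq {r : ℕ} (w : ℕ) (h : Fin r → ℕ) [DecidablePred (Good w h)] :
    good w h = (range (PP w)).filter (Good w h) := by
  classical
  unfold good
  rw [← Cls0.PP_eq_primorial]
  ext n
  rw [mem_filter, mem_filter]
  exact Iff.rfl

lemma Q_eq {r D : ℕ} (X w : ℕ) (h : Fin r → ℕ) (s : Fin D → ℕ) (T : Finset (Fin D)) :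
    Q X w h s T = QH X w h s T := by
  classical
  unfold Q QH nA
  rw [good_eq]
  congr 1
  refine sum_congr rfl fun b _ => ?_
  unfold QB
  simp only [coin_eq]
  rw [← prod_mul_prod_compl T (fun i => if i ∈ T then qq X w b (s i) else 1 - qq X w b (s i))]
  congr 1
  · exact prod_congr rfl fun i hi => by rw [if_pos hi]
  · exact prod_congr rfl fun i hi => by rw [if_neg (mem_compl.1 hi)]

open scoped Classical in
lemma filter_eq {r D : ℕ} (X : ℕ) (h : Fin r → ℕ) (s : Fin D → ℕ) (T : Finset (Fin D)) :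
    ((E X h).filter fun n => ∀ j, (n + s j).Prime ↔ j ∈ T).card = cntP X h s T := by
  classical
  unfold E cntP pat
  rw [filter_filter]
  congr 1
  ext n
  rw [mem_filter, mem_filter]
  refine and_congr_right fun _ => and_congr_right fun _ => ?_
  constructor
  · intro hh
    ext j
    rw [mem_filter]
    exact ⟨fun g => (hh j).1 g.2, fun g => ⟨mem_univ _, (hh j).2 g⟩⟩
  · intro hh j
    rw [← hh, mem_filter]
    exact ⟨fun g => ⟨mem_univ _, g⟩, fun g => g.2⟩

lemma distance_eq {r D : ℕ} (X w : ℕ) (h : Fin r → ℕ) (s : Fin D → ℕ) :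
    distance X w h s = DJ X w h s := by
  unfold distance DJ
  simp only [filter_eq, P_eq, Q_eq]

lemma most {ε : ℝ} {D X : ℕ} {A : (Fin D → ℕ) → Prop} (B : (Fin D → ℕ) → Prop)
    (hAB : ∀ s, ¬ A s → B s) [DecidablePred B]
    (h : (((Tup D (Icc 1 X)).filter B).card : ℝ) ≤ ε * (X : ℝ) ^ D) : Most ε D X A := by
  classical
  unfold Most
  refine le_trans ?_ h
  have : ((Fintype.piFinset fun _ : Fin D => Icc 1 X).filter (fun s => ¬ A s)).card ≤
      ((Tup D (Icc 1 X)).filter B).card := by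
    refine card_le_card fun s hs => ?_
    rw [mem_filter] at hs ⊢
    exact ⟨hs.1, hAB s hs.2⟩
  exact_mod_cast this

end aux

lemma g_eq : g = Pool.Agent.Lib.LEN.eg⁻¹ := by
  unfold g Pool.Agent.Lib.LEN.eg
  rw [Real.exp_neg]

lemma g_lt_one : g < 1 := by
  unfold g
  rw [Real.exp_lt_one_iff]
  have := Real.one_half_lt_eulerMascheroniConstant
  linarith

lemma law_of {ε : ℝ} {X : ℕ} (h1X : 1 ≤ X) (hX : Pool.Agent.Lib.LEN.ConcG ε X) : Law ε X := by
  classical
  intro r hrg
  have h1X' : (1 : ℝ) ≤ X := by exact_mod_cast h1X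
  have hr : (r : ℝ) ≤ (X : ℝ) ^ (1 - ε) :=
    hrg.trans (Real.rpow_le_rpow_of_exponent_le h1X' (by linarith [g_lt_one]))
  have h0 := hX r hr
  refine almost (B := fun h => ¬ Pool.Agent.Lib.LEN.NiceG ε X h) (fun h hP hN => ?_) h0
  apply hP
  obtain ⟨h0, h1, h2, h3, h4, h5⟩ := hN
  rw [← g_eq] at h4 h5
  refine ⟨fun hrr => ?_, fun w hw1 hw2 D hD => ?_, fun hrr w hw1 hw2 D hD => ?_,
    fun hk => ?_, fun hk => ?_⟩
  · rw [P_eq]
    exact h0 hrr
  · refine most _ (fun s hs => ?_) (h1 w ⟨hw1, hw2⟩ D hD)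
    rw [not_le, distance_eq, P_eq] at hs
    exact hs
  · refine most _ (fun s hs => ?_) (h2 hrr w ⟨hw1, hw2⟩ D hD)
    rw [not_le, distance_eq, P_eq] at hs
    exact hs
  · rw [P_eq] at hk ⊢
    exact (h4 hrg).1 hk
  · rw [P_eq] at hk
    exact card_eq_zero.1 ((h4 hrg).2 hk)

lemma beyond_of {ε : ℝ} {X : ℕ} (hX : Pool.Agent.Lib.LEN.ConcF ε X) : Beyond ε X := by
  classical
  intro r hr hrX
  obtain ⟨h1, h2⟩ := hX r hr hrX
  rw [← g_eq] at h1 h2
  refine ⟨fun hrg h hh hi => ?_, ?_⟩
  · rw [P_eq]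
    exact h1 hrg h hh hi
  · refine almost (B := fun h => ¬ ((¬ ∃ n ∈ Icc 1 (2 * X), ∀ i, (n + h i).Prime) ∧
      ((X : ℝ) ^ (g + ε) ≤ r → (X : ℝ) < Pool.Agent.Lib.LEN.pr X h))) (fun h hP hN => ?_) h2
    apply hP
    refine ⟨fun n hn hp => hN.1 ⟨n, hn, hp⟩, fun hrg => ?_⟩
    rw [P_eq]
    exact hN.2 hrg

/-- The theorem: beyond the threshold for all large `X`; `Law` for all large `X` without real zeros near 1, and for
arbitrarily large `X` unconditionally. -/
theorem result : ∀ ε : ℝ, 0 < ε → ∃ C : ℝ, 0 < C ∧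
    (∃ X₀ : ℕ, ∀ X : ℕ, X₀ ≤ X → Beyond ε X ∧ (RealZero C X ∨ Law ε X)) ∧
    ∀ X₀ : ℕ, ∃ X : ℕ, X₀ ≤ X ∧ Law ε X := by
  intro ε hε
  obtain ⟨C, hC, ⟨X₀, h1⟩, h2⟩ := Pool.Agent.Lib.LEN.every_pattern_gamma ε hε
  obtain ⟨X₂, h4⟩ := Pool.Agent.Lib.LEN.conc_far ε hε
  refine ⟨C, hC, ⟨max (max X₀ X₂) 1, fun X hX => ⟨?_, ?_⟩⟩, fun X₁ => ?_⟩
  · exact beyond_of (h4 X (((le_max_right _ _).trans (le_max_left _ _)).trans hX))
  · rcases h1 X (((le_max_left _ _).trans (le_max_left _ _)).trans hX) with h3 | h3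
    · exact Or.inl h3
    · exact Or.inr (law_of ((le_max_right _ _).trans hX) h3)
  · obtain ⟨X, hX, h3⟩ := h2 (max X₁ 1)
    exact ⟨X, (le_max_left _ _).trans hX, law_of ((le_max_right _ _).trans hX) h3⟩

end Pool.Agent.Results.MP_e87c7d_nt.JointLaw
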