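import Pool.Agent.Lib.PTP.Final
import Pool.Agent.Lib.NLG.IndG

/-!
# Prime tuples `n, n + P_1(t), …, n + P_r(t)` for almost all `t`

Part 0: for every `k ≥ 1` the Hardy-Littlewood formula for the `5 k + 1` shifts `0, t ^ k, t ^ (k + 1), …, t ^ (6 k - 1)` holds for almost all
`t ≤ H`, if `x ^ (1 / (6 k) + ε) ≤ H ≤ x ^ (1 / (6 k - 1))`, with an arbitrary power of `log x` saved in the error and in the exceptional
set. (`k = 1`: `n, n + t, n + t ^ 2, …, n + t ^ 5`.)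

`Universal r K A B κ x Ω s`: `Ω` is a finite set of parameters, `s t 0, …, s t (r - 1)` are the shifts which belong to
`t ∈ Ω`; for ALL sequences `w` and `g 0, …, g (r - 1)` bounded by `(log x) ^ K` and EVERY shift `c ≤ x`, all but `|Ω| / (log x) ^ A` of the
`t` in `Ω` have two properties:
* for all `y ≤ x` and all sets `J` of indices, the sum of `w n` times the product of the `g i (n + s t i)`, `i ∉ J`, over the `n ≤ y` for which
  all `n + s t i`, `i ∈ J`, are prime is, up to `x / (log x) ^ A`, the same sum over all `n ≤ y` with the sieve model of the primes at the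
  `n + s t i`, `i ∈ J`: primes are independent of arbitrary sequences in the other places;
* if the shifts `c, s t 0, …, s t (r - 1)` are distinct, then the Hardy-Littlewood formula for them holds for all
  `y ≤ x`, up to `x / (log x) ^ A`.

Part 1: one parameter `t ∈ T ⊆ [0, H]` (`T` not too small, for instance the primes up to `H`) and any number `r` of shifts `P i (t)` with
integer polynomials of DISTINCT degrees `d i`, `x ^ (1 / 6 + ε) ≤ H ^ d i ≤ x`; uniform in the polynomials, whose coefficients may be as large as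
`(log x) ^ K H ^ (d i - l)`.
Part 2: any number of parameters. Every shift `k` must have a parameter `t_j` such that, for all values of the other parameters, either
the shifts are polynomials in `t_j` as in part 1, or constant, the shift `k` not being constant (`PolynomialFamily`), or the shift `k` is
`t_j + c` with `t_j` in a set with a sparse spectrum and the other shifts do not depend on `t_j` (`SparseFamily`).
-/

set_option autoImplicit false

open Finset Filter Polynomial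

namespace Pool.Agent.Results.MP_e87c7d_nt.PolynomialTuples

open Pool.Agent.HLB Pool.Agent.HLT Pool.Agent.HLU Pool.Agent.VK Pool.Agent.VN Pool.Agent.NLT Pool.Agent.PTP
open Pool.Agent.Lib.Sieve4 (c0 c0_pos)

/-- For every `b ≤ b₀`, every set `Θ` of real numbers which are `1 / H`-separated modulo one and satisfy
`|∑ t ∈ T, exp (2 π i t θ)| ≥ |T| / (log H)^b` has at most `(log H)^(F b)` elements. -/
def SparseSpectrum (F : ℕ → ℕ) (b₀ H : ℕ) (T : Finset ℕ) : Prop :=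
  ∀ b ≤ b₀, ∀ Θ : Finset ℝ,
    (∀ θ ∈ Θ, ∀ θ' ∈ Θ, θ ≠ θ' → ∀ k : ℤ, 1 / (H : ℝ) ≤ |θ - θ' - k|) →
    (∀ θ ∈ Θ, (T.card : ℝ) ≤ Real.log H ^ b *
      ‖∑ t ∈ T, Complex.exp (2 * Real.pi * Complex.I * (t * θ))‖) →
    (Θ.card : ℝ) ≤ Real.log H ^ F b

/-- The factor at the prime `q` of the singular series of the shifts `f i`. -/
noncomputable def factor {r : ℕ} (f : Fin r → ℕ) (q : ℕ) : ℝ :=
  (1 - ((univ.image (fun i => (f i : ZMod q))).card : ℝ) / (q : ℝ)) * ((1 - 1 / (q : ℝ))⁻¹) ^ r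

/-- `1 / ((log n) ∏_{q ≤ z} (1 - 1 / q))` if `n` has no prime factor `q ≤ z`, and `0` otherwise. -/
noncomputable def model (z n : ℕ) : ℝ :=
  if ∀ q ∈ Nat.primesLE z, ¬ q ∣ n then
    (∏ q ∈ Nat.primesLE z, (1 - 1 / (q : ℝ)))⁻¹ / Real.log n else 0

/-- The Hardy-Littlewood formula for the shifts `f i` and all `y ≤ x`, with the error `e`. The singular series `S`
is at least `κ` unless it vanishes for the obvious reason. -/
def HardyLittlewood {r : ℕ} (κ : ℝ) (f : Fin r → ℕ) (x : ℕ) (e : ℝ) : Prop :=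
  ∃ S : ℝ, HasProd (fun q : Nat.Primes => factor f q) S ∧
    ((∀ q : ℕ, q.Prime → (univ.image (fun i => (f i : ZMod q))).card < q) → κ ≤ S) ∧
    ∀ y : ℕ, y ≤ x →
      |(((Icc 1 y).filter (fun n : ℕ => ∀ i, (n + f i).Prime)).card : ℝ) -
        S * ∑ n ∈ Icc 2 y, ∏ i, 1 / Real.log ((n + f i : ℕ) : ℝ)| ≤ e

/-- The set `Ω` of parameters with the shifts `s t i` is universal at `x`. -/
def Universal {τ : Type} (r K A B : ℕ) (κ : ℝ) (x : ℕ) (Ω : Finset τ) (s : τ → Fin r → ℕ) : Prop :=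
  ∀ (w : ℕ → ℂ) (g : Fin r → ℕ → ℂ), (∀ n : ℕ, 1 ≤ n → n ≤ x → ‖w n‖ ≤ Real.log x ^ K) →
    (∀ i, ∀ n : ℕ, 1 ≤ n → n ≤ 2 * x → ‖g i n‖ ≤ Real.log x ^ K) → ∀ c : ℕ, c ≤ x →
    ∃ E ⊆ Ω, (E.card : ℝ) ≤ Ω.card / Real.log x ^ A ∧ ∀ t ∈ Ω, t ∉ E →
      (∀ (J : Finset (Fin r)) (y : ℕ), y ≤ x →
        ‖∑ n ∈ (Icc 1 y).filter (fun n : ℕ => ∀ i ∈ J, (n + s t i).Prime), w n * ∏ i ∈ Jᶜ, g i (n + s t i) -
            ∑ n ∈ Icc 1 y, w n * (∏ i ∈ Jᶜ, g i (n + s t i)) *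
              ∏ i ∈ J, (model ⌊Real.log x ^ B⌋₊ (n + s t i) : ℂ)‖ ≤
          x / Real.log x ^ A) ∧
      (Function.Injective (Fin.cons c (s t) : Fin (r + 1) → ℕ) →
        HardyLittlewood κ (Fin.cons c (s t) : Fin (r + 1) → ℕ) x (x / Real.log x ^ A))

/-- On `[0, H]` the function `f` is an integer polynomial of degree `d` whose coefficients of index `l ≥ 1` are at
most `R H ^ (d - l)`. -/
def PolynomialOn (d H : ℕ) (R : ℝ) (f : ℕ → ℕ) : Prop :=
  ∃ Q : ℤ[X], Q.natDegree = d ∧ (∀ l : ℕ, 1 ≤ l → |(Q.coeff l : ℝ)| * (H : ℝ) ^ l ≤ R * (H : ℝ) ^ d) ∧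
    ∀ t : ℕ, t ≤ H → (f t : ℤ) = Q.eval (t : ℤ)

/-- The shifts `σ t i`, `t ∈ T`, are polynomials in `t`, constant or of distinct degrees `d i ≤ δ`, and the shift `σ t k` is not
constant; `T` is a subset of `[0, H]` with at least `(H + 1) / (log x) ^ K` elements. -/
def PolynomialFamily {r : ℕ} (K δ : ℕ) (ε : ℝ) (x : ℕ) (T : Finset ℕ) (σ : ℕ → Fin r → ℕ) (k : Fin r) : Prop :=
  ∃ (H : ℕ) (d : Fin r → ℕ), T ⊆ range (H + 1) ∧ (H : ℝ) + 1 ≤ Real.log x ^ K * T.card ∧ 0 < d k ∧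
    (∀ i, d i ≤ δ) ∧ (∀ i i', i ≠ i' → d i = d i' → d i = 0) ∧
    (∀ i, 0 < d i → (x : ℝ) ^ (1 / 6 + ε) ≤ (H : ℝ) ^ d i ∧ H ^ d i ≤ x) ∧
    ∀ i, PolynomialOn (d i) H (Real.log x ^ K) (fun t => σ t i) ∧ ∀ t : ℕ, t ≤ H → σ t i ≤ x

/-- The shift `σ t k` is `t + c`, the others do not depend on `t ∈ T`, and `T` has a sparse spectrum at the scale `D`. -/
def SparseFamily {r : ℕ} (b₀ : ℕ) (F : ℕ → ℕ) (ε : ℝ) (x : ℕ) (T : Finset ℕ) (σ : ℕ → Fin r → ℕ) (k : Fin r) : Prop :=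
  ∃ D : ℕ, (x : ℝ) ^ (1 / 6 + ε) ≤ D ∧ D ≤ x ∧ SparseSpectrum F b₀ D T ∧ (∃ c : ℤ, ∀ t ∈ T, (σ t k : ℤ) = t + c) ∧
    (∀ i, i ≠ k → ∀ t ∈ T, ∀ t' ∈ T, σ t i = σ t' i) ∧ ∀ t ∈ T, ∀ i, σ t i ≤ x

lemma sep_iff (H : ℕ) (Θ : Finset ℝ) :
    (∀ θ ∈ Θ, ∀ θ' ∈ Θ, θ ≠ θ' → ∀ k : ℤ, 1 / (H : ℝ) ≤ |θ - θ' - k|) ↔ VK.Sep H Θ := by
  unfold VK.Sep
  refine forall_congr' fun θ => forall_congr' fun _ => forall_congr' fun θ' => forall_congr' fun _ =>
    forall_congr' fun _ => ?_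
  constructor
  · intro h
    exact h (round (θ - θ'))
  · intro h k
    exact h.trans (round_le (θ - θ') k)

lemma norm_WW (T : Finset ℕ) (θ : ℝ) :
    ‖∑ t ∈ T, Complex.exp (2 * Real.pi * Complex.I * (t * θ))‖ = ‖WW T θ‖ := by
  unfold WW ex
  congr 1
  refine Finset.sum_congr rfl fun t _ => ?_
  congr 1
  push_cast
  ring

lemma spb_iff (F : ℕ → ℕ) (b₀ H : ℕ) (T : Finset ℕ) : SparseSpectrum F b₀ H T ↔ SpB F b₀ H T := by
  unfold SparseSpectrum SpB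
  refine forall_congr' fun b => forall_congr' fun _ => forall_congr' fun Θ => ?_
  rw [sep_iff]
  simp only [norm_WW]

lemma factor_eq {r : ℕ} (f : Fin r → ℕ) (q : ℕ) : factor f q = locI f q := by
  unfold factor locI nuI
  rw [Fintype.card_fin]

lemma model_eq (z n : ℕ) : model z n = G1 z n := by
  unfold model G1 nuz ic DZ
  split_ifs
  · rw [mul_one, mul_one_div]
  · rw [mul_zero, zero_mul]

/-- The singular series of distinct shifts is bounded below, if it does not vanish. -/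
lemma sing_lower (r : ℕ) (hr : 1 ≤ r) : ∃ κ : ℝ, 0 < κ ∧ ∀ f : Fin r → ℕ, Function.Injective f →
    (∀ q : ℕ, q.Prime → nuI f q < q) → κ ≤ SI f := by
  have h0 : 0 < Fintype.card (Fin r) := by
    rw [Fintype.card_fin]
    omega
  exact ⟨c0 (Fintype.card (Fin r)), c0_pos _ h0, fun f hf hadm => c0_le_SI f hf h0 hadm⟩

lemma hl_iff {r : ℕ} (κ : ℝ) (hκ : ∀ f : Fin r → ℕ, Function.Injective f →
    (∀ q : ℕ, q.Prime → nuI f q < q) → κ ≤ SI f) (f : Fin r → ℕ) (hf : Function.Injective f) (x : ℕ) (e : ℝ)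
    (h : ∀ y : ℕ, y ≤ x → |(((Icc 1 y).filter (fun n : ℕ => ∀ i, (n + f i).Prime)).card : ℝ) -
          SI f * ∑ n ∈ Icc 2 y, hl univ f n| ≤ e) : HardyLittlewood κ f x e := by
  refine ⟨SI f, ?_, fun hadm => hκ f hf fun q hq => hadm q hq, fun y hy => h y hy⟩
  simp only [factor_eq]
  exact hasProd_SI f hf

lemma universal_of {τ : Type} (r K A B : ℕ) (κ : ℝ) (hκ : ∀ f : Fin (r + 1) → ℕ, Function.Injective f →
    (∀ q : ℕ, q.Prime → nuI f q < q) → κ ≤ SI f) (x : ℕ) (Ω : Finset τ) (s : τ → Fin r → ℕ)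
    (h : UBC r K A B x Ω s) : Universal r K A B κ x Ω s := by
  classical
  intro w g hw hg c hc
  obtain ⟨E, hE1, hE2, hE3⟩ := h w g (fun n hn => by
    rw [mem_Icc] at hn
    exact hw n hn.1 hn.2) (fun i n hn => by
    rw [mem_Icc] at hn
    exact hg i n hn.1 hn.2) c hc
  refine ⟨E, hE1, hE2, fun t ht htE => ⟨fun J y hy => ?_, fun hinj => ?_⟩⟩
  · refine le_trans (le_of_eq ?_) ((hE3 t ht htE).1 J y hy)
    congr 1
    rw [Finset.sum_filter, ← Finset.sum_sub_distrib]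
    refine Finset.sum_congr rfl fun n _ => ?_
    have e1 : (∏ j ∈ J, G0 (n + s t j) : ℝ) = if ∀ j ∈ J, (n + s t j).Prime then 1 else 0 := by
      unfold G0
      by_cases h : ∀ j ∈ J, (n + s t j).Prime
      · rw [if_pos h]
        exact Finset.prod_eq_one fun j hj => if_pos (h j hj)
      · rw [if_neg h]
        push Not at h
        obtain ⟨j, hj, hj'⟩ := h
        exact Finset.prod_eq_zero hj (if_neg hj')
    have e2 : (∏ j ∈ J, (model ⌊Real.log x ^ B⌋₊ (n + s t j) : ℂ)) =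
        ((∏ j ∈ J, G1 (zA B x) (n + s t j) : ℝ) : ℂ) := by
      push_cast
      refine Finset.prod_congr rfl fun j _ => ?_
      rw [model_eq]
      rfl
    rw [e2, e1]
    split_ifs
    · push_cast
      ring
    · push_cast
      ring
  · exact hl_iff κ hκ _ hinj x _ ((hE3 t ht htE).2 hinj)

/-- Part 2. -/
theorem many (m r K A δ : ℕ) (F : ℕ → ℕ) (ε : ℝ) (hε : 0 < ε) : ∃ (b₀ B x₀ : ℕ) (κ : ℝ), 0 < κ ∧ ∀ x : ℕ, x₀ ≤ x →
    ∀ (T : Fin m → Finset ℕ) (s : (Fin m → ℕ) → Fin r → ℕ), (∀ p ∈ Fintype.piFinset T, ∀ i, s p i ≤ x) →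
    (∀ k, ∃ j, ∀ p ∈ Fintype.piFinset T, PolynomialFamily K δ ε x (T j) (fun t => s (Function.update p j t)) k ∨
      SparseFamily b₀ F ε x (T j) (fun t => s (Function.update p j t)) k) →
    Universal r K A B κ x (Fintype.piFinset T) s := by
  obtain ⟨b₀, B, h1⟩ := fin_many Pool.Agent.NLG.genA m r K A δ F ε hε
  obtain ⟨κ, hκ0, hκ⟩ := sing_lower (r + 1) (by omega)
  obtain ⟨x₀, hx₀⟩ := eventually_atTop.mp h1
  refine ⟨b₀, B, x₀, κ, hκ0, fun x hx T s hT hs => ?_⟩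
  refine universal_of r K A B κ hκ x _ s (hx₀ x hx T s hT fun k => ?_)
  obtain ⟨j, hj⟩ := hs k
  refine ⟨j, fun p hp => (hj p hp).imp (fun h => h) (fun h => ?_)⟩
  obtain ⟨D, h1, h2, h3, h4⟩ := h
  exact ⟨D, h1, h2, (spb_iff F b₀ D (T j)).mp h3, h4⟩

/-- Part 1. -/
theorem one (r K A : ℕ) (ε : ℝ) (hε : 0 < ε) (d : Fin r → ℕ) (hd1 : ∀ i, 1 ≤ d i) (hd : Function.Injective d) :
    ∃ (B x₀ : ℕ) (κ : ℝ), 0 < κ ∧ ∀ x : ℕ, x₀ ≤ x →
    ∀ H : ℕ, (∀ i, (x : ℝ) ^ (1 / 6 + ε) ≤ (H : ℝ) ^ d i ∧ H ^ d i ≤ x) →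
    ∀ T ⊆ range (H + 1), (H : ℝ) + 1 ≤ Real.log x ^ K * T.card →
    ∀ P : Fin r → ℤ[X], (∀ i, (P i).natDegree = d i) →
    (∀ i, ∀ l : ℕ, 1 ≤ l → |((P i).coeff l : ℝ)| * (H : ℝ) ^ l ≤ Real.log x ^ K * (H : ℝ) ^ d i) →
    (∀ i, ∀ t : ℕ, t ≤ H → 0 ≤ (P i).eval (t : ℤ) ∧ (P i).eval (t : ℤ) ≤ x) →
    Universal r K A B κ x T (fun t i => ((P i).eval (t : ℤ)).toNat) := by
  obtain ⟨B, h1⟩ := fin_one Pool.Agent.NLG.genA r K A (∑ i, d i) ε hε
  obtain ⟨κ, hκ0, hκ⟩ := sing_lower (r + 1) (by omega)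
  obtain ⟨x₀, hx₀⟩ := eventually_atTop.mp h1
  refine ⟨B, x₀, κ, hκ0, fun x hx H hH T hT hTc P hP1 hP2 hP3 => ?_⟩
  have hle : ∀ i, ∀ t : ℕ, t ≤ H → ((P i).eval (t : ℤ)).toNat ≤ x := by
    intro i t ht
    have := (hP3 i t ht).2
    omega
  refine universal_of r K A B κ hκ x _ _ (hx₀ x hx T _ ?_ ?_)
  · intro t ht i
    have := Finset.mem_range.mp (hT ht)
    exact hle i t (by omega)
  · intro k
    refine ⟨H, d, hT, hTc, hd1 k, fun i => ?_, fun i i' hne heq => absurd (hd heq) hne, fun i _ => hH i, fun i => ⟨?_, hle i⟩⟩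
    · exact Finset.single_le_sum (f := d) (fun _ _ => Nat.zero_le _) (Finset.mem_univ i)
    · refine ⟨P i, hP1 i, hP2 i, fun t ht => ?_⟩
      exact Int.toNat_of_nonneg (hP3 i t ht).1

/-- Part 0. -/
theorem powers (k A : ℕ) (hk : 1 ≤ k) (ε : ℝ) (hε : 0 < ε) : ∃ (x₀ : ℕ) (κ : ℝ), 0 < κ ∧ ∀ x : ℕ, x₀ ≤ x →
    ∀ H : ℕ, (x : ℝ) ^ (1 / (6 * k) + ε : ℝ) ≤ H → H ^ (6 * k - 1) ≤ x →
      ∃ E ⊆ Icc 2 H, (E.card : ℝ) ≤ H / Real.log x ^ A ∧ ∀ t ∈ Icc 2 H, t ∉ E →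
        HardyLittlewood κ (Fin.cons 0 (fun i : Fin (5 * k) => t ^ (k + (i : ℕ))) : Fin (5 * k + 1) → ℕ) x
          (x / Real.log x ^ A) := by
  classical
  have hk0 : (0 : ℝ) < k := by exact_mod_cast hk
  obtain ⟨B, x₀, κ, hκ0, h⟩ := one (5 * k) 1 (A + 1) (k * ε) (by positivity) (fun i => k + (i : ℕ))
    (fun i => by omega) (fun i j hij => by
      apply Fin.ext
      have : k + (i : ℕ) = k + (j : ℕ) := hij
      omega)
  obtain ⟨x₁, hx₁⟩ := eventually_atTop.mp (ev_log 2)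
  refine ⟨max x₀ x₁, κ, hκ0, fun x hx H hH hH2 => ?_⟩
  have hL : 2 ≤ Real.log x := hx₁ x (le_trans (le_max_right _ _) hx)
  have hL0 : 0 < Real.log x := by linarith
  have hx1 : (1 : ℝ) ≤ x := by
    rcases Nat.eq_zero_or_pos x with h4 | h4
    · rw [h4, Nat.cast_zero, Real.log_zero] at hL
      linarith
    · exact_mod_cast h4
  have hx0 : (0 : ℝ) < x := by linarith
  have hH1 : 1 ≤ H := by
    rcases Nat.eq_zero_or_pos H with h0 | h0
    · exfalso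
      rw [h0, Nat.cast_zero] at hH
      have : 0 < (x : ℝ) ^ (1 / (6 * k) + ε : ℝ) := Real.rpow_pos_of_pos hx0 _
      linarith
    · exact h0
  have hH1' : (1 : ℝ) ≤ H := by exact_mod_cast hH1
  have hpw : ∀ i : Fin (5 * k), (H : ℝ) ^ k ≤ (H : ℝ) ^ (k + (i : ℕ)) := fun i =>
    pow_le_pow_right₀ hH1' (by omega)
  have hpw2 : ∀ i : Fin (5 * k), ∀ t : ℕ, t ≤ H → t ^ (k + (i : ℕ)) ≤ x := by
    intro i t ht
    have hi := i.2
    calc t ^ (k + (i : ℕ)) ≤ H ^ (k + (i : ℕ)) := Nat.pow_le_pow_left ht _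
      _ ≤ H ^ (6 * k - 1) := Nat.pow_le_pow_right hH1 (by omega)
      _ ≤ x := hH2
  have hHk : (x : ℝ) ^ (1 / 6 + k * ε) ≤ (H : ℝ) ^ k := by
    have e1 : (x : ℝ) ^ (1 / 6 + k * ε) = ((x : ℝ) ^ (1 / (6 * k) + ε : ℝ)) ^ k := by
      rw [← Real.rpow_natCast, ← Real.rpow_mul hx0.le]
      congr 1
      field_simp
    rw [e1]
    exact pow_le_pow_left₀ (by positivity) hH _
  obtain ⟨E, hE1, hE2, hE3⟩ := h x (le_trans (le_max_left _ _) hx) H
    (fun i => ⟨hHk.trans (hpw i), hpw2 i H le_rfl⟩) (range (H + 1)) subset_rfl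
    (by
      rw [Finset.card_range, pow_one]
      push_cast
      nlinarith) (fun i => X ^ (k + (i : ℕ)))
    (fun i => natDegree_X_pow _)
    (fun i l hl => by
      rw [coeff_X_pow]
      split_ifs with h1
      · rw [h1, pow_one, Int.cast_one, abs_one, one_mul]
        exact le_mul_of_one_le_left (by positivity) (by linarith)
      · rw [Int.cast_zero, abs_zero, zero_mul]
        positivity)
    (fun i t ht => by
      rw [eval_pow, eval_X]
      have := hpw2 i t ht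
      exact ⟨by positivity, by exact_mod_cast this⟩)
    (fun _ => 0) (fun _ _ => 0) (fun n _ _ => by rw [norm_zero]; positivity)
    (fun i n _ _ => by rw [norm_zero]; positivity) 0 (Nat.zero_le x)
  refine ⟨E ∩ Icc 2 H, Finset.inter_subset_right, ?_, fun t ht htE => ?_⟩
  · have h1 : ((E ∩ Icc 2 H).card : ℝ) ≤ E.card := by
      exact_mod_cast Finset.card_le_card Finset.inter_subset_left
    refine h1.trans (hE2.trans ?_)
    rw [Finset.card_range, pow_succ, div_le_div_iff₀ (by positivity) (by positivity)]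
    have h3 : 0 < Real.log x ^ A := by positivity
    push_cast
    have h4 : ((H : ℝ) + 1) ≤ H * Real.log x := by nlinarith
    calc ((H : ℝ) + 1) * Real.log x ^ A ≤ (H * Real.log x) * Real.log x ^ A :=
          mul_le_mul_of_nonneg_right h4 h3.le
      _ = H * (Real.log x ^ A * Real.log x) := by ring
  · have ht' := Finset.mem_Icc.mp ht
    have htr : t ∈ range (H + 1) := Finset.mem_range.mpr (by omega)
    have htE' : t ∉ E := fun h1 => htE (Finset.mem_inter.mpr ⟨h1, ht⟩)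
    have h1 := (hE3 t htr htE').2
    have e : (fun i : Fin (5 * k) => ((X ^ (k + (i : ℕ)) : ℤ[X]).eval (t : ℤ)).toNat) =
        fun i : Fin (5 * k) => t ^ (k + (i : ℕ)) := by
      funext i
      rw [eval_pow, eval_X, ← Nat.cast_pow, Int.toNat_natCast]
    simp only [e] at h1
    have hinj : Function.Injective (Fin.cons 0 (fun i : Fin (5 * k) => t ^ (k + (i : ℕ))) : Fin (5 * k + 1) → ℕ) := by
      rw [Fin.cons_injective_iff]
      constructor
      · rintro ⟨i, hi⟩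
        have h2 : 0 < t ^ (k + (i : ℕ)) := by
          have : 0 < t := by omega
          positivity
        have h3 : t ^ (k + (i : ℕ)) = 0 := hi
        omega
      · intro i j hij
        have h2 : k + (i : ℕ) = k + (j : ℕ) := Nat.pow_right_injective (show 2 ≤ t by omega) hij
        apply Fin.ext
        omega
    obtain ⟨S, hS1, hS2, hS3⟩ := h1 hinj
    refine ⟨S, hS1, hS2, fun y hy => (hS3 y hy).trans ?_⟩
    rw [pow_succ]
    refine div_le_div_of_nonneg_left (Nat.cast_nonneg x) (by positivity) ?_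
    have h3 : 0 < Real.log x ^ A := by positivity
    nlinarith

theorem result :
    -- 0. `n, n + t ^ k, n + t ^ (k + 1), …, n + t ^ (6 k - 1)`
    (∀ k A : ℕ, 1 ≤ k → ∀ ε : ℝ, 0 < ε → ∃ (x₀ : ℕ) (κ : ℝ), 0 < κ ∧ ∀ x : ℕ, x₀ ≤ x →
      ∀ H : ℕ, (x : ℝ) ^ (1 / (6 * k) + ε : ℝ) ≤ H → H ^ (6 * k - 1) ≤ x →
        ∃ E ⊆ Icc 2 H, (E.card : ℝ) ≤ H / Real.log x ^ A ∧ ∀ t ∈ Icc 2 H, t ∉ E →
          HardyLittlewood κ (Fin.cons 0 (fun i : Fin (5 * k) => t ^ (k + (i : ℕ))) : Fin (5 * k + 1) → ℕ) x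
            (x / Real.log x ^ A)) ∧
    -- 1. one parameter `t`, any number of shifts `P i (t)` with polynomials of distinct degrees
    (∀ (r K A : ℕ) (ε : ℝ), 0 < ε → ∀ d : Fin r → ℕ, (∀ i, 1 ≤ d i) → Function.Injective d →
      ∃ (B x₀ : ℕ) (κ : ℝ), 0 < κ ∧ ∀ x : ℕ, x₀ ≤ x →
      ∀ H : ℕ, (∀ i, (x : ℝ) ^ (1 / 6 + ε) ≤ (H : ℝ) ^ d i ∧ H ^ d i ≤ x) →
      ∀ T ⊆ range (H + 1), (H : ℝ) + 1 ≤ Real.log x ^ K * T.card →
      ∀ P : Fin r → ℤ[X], (∀ i, (P i).natDegree = d i) →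
      (∀ i, ∀ l : ℕ, 1 ≤ l → |((P i).coeff l : ℝ)| * (H : ℝ) ^ l ≤ Real.log x ^ K * (H : ℝ) ^ d i) →
      (∀ i, ∀ t : ℕ, t ≤ H → 0 ≤ (P i).eval (t : ℤ) ∧ (P i).eval (t : ℤ) ≤ x) →
      Universal r K A B κ x T (fun t i => ((P i).eval (t : ℤ)).toNat)) ∧
    -- 2. any number of parameters `p 0, …, p (m - 1)`, any number of shifts `s p 0, …, s p (r - 1)`
    (∀ (m r K A δ : ℕ) (F : ℕ → ℕ) (ε : ℝ), 0 < ε → ∃ (b₀ B x₀ : ℕ) (κ : ℝ), 0 < κ ∧ ∀ x : ℕ, x₀ ≤ x →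
      ∀ (T : Fin m → Finset ℕ) (s : (Fin m → ℕ) → Fin r → ℕ), (∀ p ∈ Fintype.piFinset T, ∀ i, s p i ≤ x) →
      (∀ k, ∃ j, ∀ p ∈ Fintype.piFinset T, PolynomialFamily K δ ε x (T j) (fun t => s (Function.update p j t)) k ∨
        SparseFamily b₀ F ε x (T j) (fun t => s (Function.update p j t)) k) →
      Universal r K A B κ x (Fintype.piFinset T) s) :=
  ⟨fun k A hk ε hε => powers k A hk ε hε, fun r K A ε hε d hd1 hd => one r K A ε hε d hd1 hd,
    fun m r K A δ F ε hε => many m r K A δ F ε hε⟩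

end Pool.Agent.Results.MP_e87c7d_nt.PolynomialTuples
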